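import Mathlib

/-! Generalised Baire category on functions `X → V`, `#X` regular: conditions are
partial functions (as graphs) of size `< #X`. -/

set_option autoImplicit false

namespace Pool.Agent.Helper63.INV

open Cardinal Set

universe u

variable {X : Type u} {V : Type}

/-- The graph `s` is functional. -/
def Fn (s : Set (X × V)) : Prop := ∀ x v w, (x, v) ∈ s → (x, w) ∈ s → v = w

/-- `g` extends the graph `s`. -/
def Sat (g : X → V) (s : Set (X × V)) : Prop := ∀ x v, (x, v) ∈ s → g x = v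

/-- small functional graphs -/
def Cd (s : Set (X × V)) : Prop := Fn s ∧ #s < #X

/-- nowhere dense sets -/
def NWD (N : Set (X → V)) : Prop :=
  ∀ s : Set (X × V), Cd s → ∃ t, s ⊆ t ∧ Cd t ∧ ∀ g ∈ N, ¬ Sat g t

/-- meagre sets: covered by `#X` nowhere dense sets -/
def Mgr (M : Set (X → V)) : Prop :=
  ∃ N : X → Set (X → V), (∀ ξ, NWD (N ξ)) ∧ ∀ g ∈ M, ∃ ξ, g ∈ N ξ

theorem Sat.mono {g : X → V} {s t : Set (X × V)} (h : Sat g t) (hst : s ⊆ t) : Sat g s :=
  fun x v hx => h x v (hst hx)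

theorem Fn.mono {s t : Set (X × V)} (h : Fn t) (hst : s ⊆ t) : Fn s :=
  fun x v w h1 h2 => h x v w (hst h1) (hst h2)

theorem Sat.fn {g : X → V} {s : Set (X × V)} (h : Sat g s) : Fn s :=
  fun x v w h1 h2 => (h x v h1).symm.trans (h x w h2)

theorem Sat.union {g : X → V} {s t : Set (X × V)} (h : Sat g s) (h' : Sat g t) :
    Sat g (s ∪ t) := by
  intro x v hx
  rcases hx with hx | hx
  · exact h x v hx
  · exact h' x v hx

theorem NWD.mono {N M : Set (X → V)} (h : NWD N) (hMN : M ⊆ N) : NWD M := by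
  intro s hs
  obtain ⟨t, h1, h2, h3⟩ := h s hs
  exact ⟨t, h1, h2, fun g hg => h3 g (hMN hg)⟩

theorem nwd_empty : NWD (∅ : Set (X → V)) :=
  fun s hs => ⟨s, subset_rfl, hs, fun g hg => (Set.notMem_empty g hg).elim⟩

theorem NWD.union {N M : Set (X → V)} (h : NWD N) (h' : NWD M) : NWD (N ∪ M) := by
  intro s hs
  obtain ⟨t, h1, h2, h3⟩ := h s hs
  obtain ⟨u, k1, k2, k3⟩ := h' t h2
  refine ⟨u, h1.trans k1, k2, fun g hg hgu => ?_⟩
  rcases hg with hg | hg
  · exact h3 g hg (hgu.mono k1)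
  · exact k3 g hg hgu

theorem Mgr.mono {N M : Set (X → V)} (h : Mgr N) (hMN : M ⊆ N) : Mgr M := by
  obtain ⟨F, h1, h2⟩ := h
  exact ⟨F, h1, fun g hg => h2 g (hMN hg)⟩

theorem card_union_lt (hX : ℵ₀ ≤ #X) {s t : Set (X × V)} (hs : #s < #X) (ht : #t < #X) :
    #(s ∪ t : Set (X × V)) < #X :=
  lt_of_le_of_lt (mk_union_le s t) (add_lt_of_lt hX hs ht)

/-- extension chosen to avoid one nowhere dense set -/
noncomputable def ext (N : Set (X → V)) (hN : NWD N) (s : Set (X × V)) : Set (X × V) := by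
  classical
  exact if h : Cd s then Classical.choose (hN s h) else s

theorem subset_ext (N : Set (X → V)) (hN : NWD N) (s : Set (X × V)) : s ⊆ ext N hN s := by
  unfold ext
  split_ifs with h
  · exact (Classical.choose_spec (hN s h)).1
  · exact subset_rfl

theorem cd_ext (N : Set (X → V)) (hN : NWD N) (s : Set (X × V)) (h : Cd s) :
    Cd (ext N hN s) := by
  unfold ext
  rw [dif_pos h]
  exact (Classical.choose_spec (hN s h)).2.1

theorem avoid_ext (N : Set (X → V)) (hN : NWD N) (s : Set (X × V)) (h : Cd s) :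
    ∀ g ∈ N, ¬ Sat g (ext N hN s) := by
  unfold ext
  rw [dif_pos h]
  exact (Classical.choose_spec (hN s h)).2.2

/-- Baire category theorem for regular `#X`. -/
theorem baire [Nonempty V] (hreg : (#X).IsRegular) (N : X → Set (X → V))
    (hN : ∀ ξ, NWD (N ξ)) (s : Set (X × V)) (hs : Cd s) :
    ∃ g, Sat g s ∧ ∀ ξ, g ∉ N ξ := by
  classical
  obtain ⟨r, wo, hr⟩ := Cardinal.exists_ord_eq X
  have hX : ℵ₀ ≤ #X := hreg.aleph0_le
  let F : X → Set (X × V) := wo.wf.fix (fun x ih =>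
    ext (N x) (hN x) (s ∪ ⋃ (y : X) (h : r y x), ih y h))
  have hF : ∀ x, F x = ext (N x) (hN x) (s ∪ ⋃ (y : X) (_ : r y x), F y) := by
    intro x
    exact WellFounded.fix_eq _ _ x
  have hsub : ∀ x, (s ∪ ⋃ (y : X) (_ : r y x), F y) ⊆ F x := by
    intro x
    rw [hF x]
    exact subset_ext _ _ _
  have hsF : ∀ x, s ⊆ F x := fun x => subset_union_left.trans (hsub x)
  have hmono : ∀ x y, r y x → F y ⊆ F x := by
    intro x y hyx p hp
    apply hsub x
    right
    simp only [mem_iUnion]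
    exact ⟨y, hyx, hp⟩
  have hcd : ∀ x, Cd (s ∪ ⋃ (y : X) (_ : r y x), F y) ∧ Cd (F x) := by
    intro x
    induction x using wo.wf.induction with
    | _ x ih =>
      have h1 : Cd (s ∪ ⋃ (y : X) (_ : r y x), F y) := by
        constructor
        · intro z v w hv hw
          have key : ∀ v, (z, v) ∈ (s ∪ ⋃ (y : X) (_ : r y x), F y) →
              (z, v) ∈ s ∨ ∃ y, r y x ∧ (z, v) ∈ F y := by
            intro v hv
            rcases hv with hv | hv
            · exact Or.inl hv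
            · simp only [mem_iUnion] at hv
              obtain ⟨y, hy, h⟩ := hv
              exact Or.inr ⟨y, hy, h⟩
          rcases key v hv with h1 | ⟨y, hy, h1⟩
          · rcases key w hw with h2 | ⟨y', hy', h2⟩
            · exact hs.1 z v w h1 h2
            · exact (ih y' hy').2.1 z v w (hsF y' h1) h2
          · rcases key w hw with h2 | ⟨y', hy', h2⟩
            · exact (ih y hy).2.1 z v w h1 (hsF y h2)
            · rcases trichotomous_of r y y' with h | h | h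
              · exact (ih y' hy').2.1 z v w (hmono y' y h h1) h2
              · subst h
                exact (ih y hy).2.1 z v w h1 h2
              · exact (ih y hy).2.1 z v w h1 (hmono y y' h h2)
        · apply card_union_lt hX hs.2
          have hle : #({y | r y x} : Set X) < #X := card_typein_lt x hr
          have := (card_biUnion_lt_iff_forall_of_isRegular (t := fun y (_ : y ∈ {y | r y x}) => F y)
            hreg hle).2 (fun y hy => (ih y hy).2.2)
          exact this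
      refine ⟨h1, ?_⟩
      rw [hF x]
      exact cd_ext _ _ _ h1
  let U : Set (X × V) := s ∪ ⋃ x, F x
  have hU : Fn U := by
    intro z v w hv hw
    have key : ∀ v, (z, v) ∈ U → ∃ y, (z, v) ∈ F y ∨ (z, v) ∈ s := by
      intro v hv
      rcases hv with hv | hv
      · exact ⟨z, Or.inr hv⟩
      · simp only [mem_iUnion] at hv
        obtain ⟨y, h⟩ := hv
        exact ⟨y, Or.inl h⟩
    have key2 : ∀ v, (z, v) ∈ U → ∃ y, (z, v) ∈ F y := by
      intro v hv
      obtain ⟨y, h | h⟩ := key v hv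
      · exact ⟨y, h⟩
      · exact ⟨y, hsF y h⟩
    obtain ⟨y, h1⟩ := key2 v hv
    obtain ⟨y', h2⟩ := key2 w hw
    rcases trichotomous_of r y y' with h | h | h
    · exact (hcd y').2.1 z v w (hmono y' y h h1) h2
    · subst h
      exact (hcd y).2.1 z v w h1 h2
    · exact (hcd y).2.1 z v w h1 (hmono y y' h h2)
  let g : X → V := fun x => if h : ∃ v, (x, v) ∈ U then Classical.choose h
    else Classical.arbitrary V
  have hg : Sat g U := by
    intro x v hx
    have h : ∃ v, (x, v) ∈ U := ⟨v, hx⟩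
    show (if h : ∃ v, (x, v) ∈ U then Classical.choose h else Classical.arbitrary V) = v
    rw [dif_pos h]
    exact hU x _ _ (Classical.choose_spec h) hx
  refine ⟨g, hg.mono subset_union_left, fun ξ hξ => ?_⟩
  have h1 : Sat g (F ξ) := hg.mono (fun p hp => Or.inr (mem_iUnion.2 ⟨ξ, hp⟩))
  rw [hF ξ] at h1
  exact avoid_ext _ _ _ (hcd ξ).1 g hξ h1

theorem not_mgr [Nonempty V] (hreg : (#X).IsRegular) (s : Set (X × V)) (hs : Cd s) :
    ¬ Mgr {g : X → V | Sat g s} := by
  rintro ⟨N, h1, h2⟩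
  obtain ⟨g, hg, hg'⟩ := baire hreg N h1 s hs
  obtain ⟨ξ, hξ⟩ := h2 g hg
  exact hg' ξ hξ

/-- union over an index type embedding into `X` -/
theorem mgr_iUnion [Infinite X] {Y : Type u} (e : Y → X) (he : Function.Injective e)
    (M : Y → Set (X → V)) (hM : ∀ y, Mgr (M y)) : Mgr (⋃ y, M y) := by
  classical
  choose N hN1 hN2 using hM
  have hc : #(X × X) = #X := by
    rw [← mul_def]
    exact mul_eq_self (infinite_iff.1 inferInstance)
  obtain ⟨q⟩ := Cardinal.eq.1 hc
  refine ⟨fun ζ => {g | ∃ y ξ, q (e y, ξ) = ζ ∧ g ∈ N y ξ}, ?_, ?_⟩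
  · intro ζ
    by_cases h : ∃ y ξ, q (e y, ξ) = ζ
    · obtain ⟨y, ξ, h⟩ := h
      apply (hN1 y ξ).mono
      rintro g ⟨y', ξ', h', hg⟩
      have : (e y', ξ') = (e y, ξ) := q.injective (h'.trans h.symm)
      simp only [Prod.mk.injEq] at this
      obtain ⟨h3, h4⟩ := this
      have h5 := he h3
      subst h5
      subst h4
      exact hg
    · apply nwd_empty.mono
      rintro g ⟨y', ξ', h', hg⟩
      exact (h ⟨y', ξ', h'⟩).elim
  · intro g hg
    simp only [mem_iUnion] at hg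
    obtain ⟨y, hy⟩ := hg
    obtain ⟨ξ, hξ⟩ := hN2 y g hy
    exact ⟨q (e y, ξ), y, ξ, rfl, hξ⟩

/-- everywhere non-meagre below `s` -/
def Big (S : Set (X → V)) (s : Set (X × V)) : Prop :=
  ∀ t, s ⊆ t → Cd t → ¬ Mgr {g | g ∈ S ∧ Sat g t}

theorem Big.mono {S : Set (X → V)} {s t : Set (X × V)} (h : Big S s) (hst : s ⊆ t) : Big S t :=
  fun u hu => h u (hst.trans hu)

theorem Big.nonempty {S : Set (X → V)} {s : Set (X × V)} (h : Big S s) (hs : Cd s) :
    ∃ g ∈ S, Sat g s := by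
  by_contra hcon
  push Not at hcon
  apply h s subset_rfl hs
  exact ⟨fun _ => ∅, fun _ => nwd_empty, fun g hg => (hcon g hg.1 hg.2).elim⟩

/-- Banach category theorem (localisation). -/
theorem big_of_not_mgr [Infinite X] (S : Set (X → V)) (s : Set (X × V)) (hs : Cd s)
    (h : ¬ Mgr {g | g ∈ S ∧ Sat g s}) : ∃ t, s ⊆ t ∧ Cd t ∧ Big S t := by
  classical
  have hX : ℵ₀ ≤ #X := infinite_iff.1 inferInstance
  by_contra hcon
  apply h
  have hcon' : ∀ t, s ⊆ t → Cd t → ∃ t', t ⊆ t' ∧ Cd t' ∧ Mgr {g | g ∈ S ∧ Sat g t'} := by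
    intro t h1 h2
    by_contra h3
    apply hcon
    refine ⟨t, h1, h2, fun u hu hu' hm => h3 ⟨u, hu, hu', hm⟩⟩
  let Z : Set (Set (Set (X × V))) := {A | (∀ t ∈ A, Cd t ∧ Mgr {g | g ∈ S ∧ Sat g t}) ∧
    ∀ t ∈ A, ∀ t' ∈ A, Fn (t ∪ t') → t = t'}
  obtain ⟨A, hA⟩ : ∃ A, Maximal (· ∈ Z) A := by
    apply zorn_subset Z
    intro c hc hchain
    refine ⟨⋃₀ c, ⟨?_, ?_⟩, fun a ha => subset_sUnion_of_mem ha⟩
    · rintro t ⟨B, hB, ht⟩
      exact (hc hB).1 t ht
    · rintro t ⟨B, hB, ht⟩ t' ⟨B', hB', ht'⟩ hfn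
      rcases hchain.total hB hB' with h1 | h1
      · exact (hc hB').2 t (h1 ht) t' ht' hfn
      · exact (hc hB).2 t ht t' (h1 ht') hfn
  have hAZ : A ∈ Z := hA.prop
  have hf : ∀ t : Set (X × V), ∃ N : X → Set (X → V), t ∈ A →
      ((∀ ξ, NWD (N ξ)) ∧ ∀ g, g ∈ S → Sat g t → ∃ ξ, g ∈ N ξ) := by
    intro t
    by_cases ht : t ∈ A
    · obtain ⟨N, h1, h2⟩ := (hAZ.1 t ht).2
      exact ⟨N, fun _ => ⟨h1, fun g hg hg' => h2 g ⟨hg, hg'⟩⟩⟩
    · exact ⟨fun _ => ∅, fun h => (ht h).elim⟩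
  choose N hN using hf
  refine ⟨fun ξ => {g | g ∈ S ∧ Sat g s ∧ ((∀ t ∈ A, ¬ Sat g t) ∨
    ∃ t ∈ A, Sat g t ∧ g ∈ N t ξ)}, ?_, ?_⟩
  · intro ξ u hu
    by_cases hus : Fn (u ∪ s)
    swap
    · refine ⟨u, subset_rfl, hu, fun g hg hgu => hus ?_⟩
      exact (hgu.union hg.2.1).fn
    have hu1 : Cd (u ∪ s) := ⟨hus, card_union_lt hX hu.2 hs.2⟩
    obtain ⟨t', h1, h2, h3⟩ := hcon' (u ∪ s) subset_union_right hu1
    have hex : ∃ t ∈ A, Fn (t' ∪ t) := by
      by_contra h4
      push Not at h4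
      have h5 : insert t' A ∈ Z := by
        constructor
        · intro t ht
          rcases ht with rfl | ht
          · exact ⟨h2, h3⟩
          · exact hAZ.1 t ht
        · intro t ht t'' ht'' hfn
          rcases ht with rfl | ht
          · rcases ht'' with rfl | ht''
            · rfl
            · exact (h4 t'' ht'' hfn).elim
          · rcases ht'' with rfl | ht''
            · rw [union_comm] at hfn
              exact (h4 t ht hfn).elim
            · exact hAZ.2 t ht t'' ht'' hfn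
      have h6 : t' ∈ A := hA.le_of_ge h5 (subset_insert _ _) (mem_insert _ _)
      exact h4 t' h6 (by rw [union_self]; exact h2.1)
    obtain ⟨t, htA, htt⟩ := hex
    have hu2 : Cd (t' ∪ t) := ⟨htt, card_union_lt hX h2.2 (hAZ.1 t htA).1.2⟩
    obtain ⟨w, k1, k2, k3⟩ := (hN t htA).1 ξ (t' ∪ t) hu2
    refine ⟨w, (subset_union_left.trans h1).trans (subset_union_left.trans k1), k2, ?_⟩
    rintro g ⟨hgS, hgs, hg⟩ hgw
    have hgt : Sat g t := hgw.mono (subset_union_right.trans k1)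
    rcases hg with hg | ⟨t1, ht1, hgt1, hgN⟩
    · exact hg t htA hgt
    · have : t1 = t := hAZ.2 t1 ht1 t htA (hgt1.union hgt).fn
      subst this
      exact k3 g hgN hgw
  · rintro g ⟨hgS, hgs⟩
    by_cases hg : ∀ t ∈ A, ¬ Sat g t
    · exact ⟨Classical.arbitrary X, hgS, hgs, Or.inl hg⟩
    · push Not at hg
      obtain ⟨t, htA, hgt⟩ := hg
      obtain ⟨ξ, hξ⟩ := (hN t htA).2 g hgS hgt
      exact ⟨ξ, hgS, hgs, Or.inr ⟨t, htA, hgt, hξ⟩⟩

/-- partition lemma -/
theorem Big.split [Infinite X] {S : Set (X → V)} {s : Set (X × V)} (h : Big S s) (hs : Cd s)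
    {Y : Type u} (e : Y → X) (he : Function.Injective e) (c : (X → V) → Y) :
    ∃ y t, s ⊆ t ∧ Cd t ∧ Big {g | g ∈ S ∧ c g = y} t := by
  by_contra hcon
  have h1 : ∀ y, Mgr {g | g ∈ {g | g ∈ S ∧ c g = y} ∧ Sat g s} := by
    intro y
    by_contra h2
    obtain ⟨t, h3, h4, h5⟩ := big_of_not_mgr _ s hs h2
    exact hcon ⟨y, t, h3, h4, h5⟩
  apply h s subset_rfl hs
  apply (mgr_iUnion e he _ h1).mono
  rintro g ⟨hg, hg'⟩
  simp only [mem_iUnion]
  exact ⟨c g, ⟨hg, rfl⟩, hg'⟩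

end Pool.Agent.Helper63.INV
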