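import Pool.Agent.Helper63.INV.Cat

/-! Exploration of a ball for two sets, and non-meagreness of the sets of small measure. -/

set_option autoImplicit false

namespace Pool.Agent.Helper63.INV

open Cardinal Set

universe u v

variable {X : Type u} {V : Type}

/-- domain of a graph -/
def dm (s : Set (X × V)) : Set X := {x | ∃ v, (x, v) ∈ s}

theorem card_dm_lt {s : Set (X × V)} (hs : #s < #X) : #(dm s) < #X := by
  have h : dm s = Prod.fst '' s := by
    ext x
    constructor
    · rintro ⟨v, hv⟩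
      exact ⟨(x, v), hv, rfl⟩
    · rintro ⟨⟨y, v⟩, hv, rfl⟩
      exact ⟨v, hv⟩
  rw [h]
  exact lt_of_le_of_lt mk_image_le hs

/-- put the points of `D` which are not yet decided into the set -/
def fill (s : Set (X × Bool)) (D : Set X) : Set (X × Bool) :=
  s ∪ {p | p.1 ∈ D ∧ p.1 ∉ dm s ∧ p.2 = true}

theorem subset_fill (s : Set (X × Bool)) (D : Set X) : s ⊆ fill s D := subset_union_left

theorem mem_fill {s : Set (X × Bool)} {D : Set X} {x : X} (hx : x ∈ D) (hx' : x ∉ dm s) :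
    (x, true) ∈ fill s D := Or.inr ⟨hx, hx', rfl⟩

theorem cd_fill (hX : ℵ₀ ≤ #X) {s : Set (X × Bool)} (hs : Cd s) {D : Set X} (hD : #D < #X) :
    Cd (fill s D) := by
  constructor
  · intro x v w hv hw
    rcases hv with hv | hv
    · rcases hw with hw | hw
      · exact hs.1 x v w hv hw
      · exact (hw.2.1 ⟨v, hv⟩).elim
    · rcases hw with hw | hw
      · exact (hv.2.1 ⟨w, hw⟩).elim
      · exact hv.2.2.trans hw.2.2.symm
  · apply card_union_lt hX hs.2
    have h : {p : X × Bool | p.1 ∈ D ∧ p.1 ∉ dm s ∧ p.2 = true} ⊆ (fun x => (x, true)) '' D := by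
      rintro ⟨x, b⟩ ⟨h1, h2, h3⟩
      simp only at h3
      subst h3
      exact ⟨x, h1, rfl⟩
    exact lt_of_le_of_lt ((mk_le_mk_of_subset h).trans mk_image_le) hD

theorem dm_fill (s : Set (X × Bool)) (D : Set X) : dm (fill s D) = dm s ∪ D := by
  ext x
  constructor
  · rintro ⟨v, hv | hv⟩
    · exact Or.inl ⟨v, hv⟩
    · exact Or.inr hv.1
  · rintro (⟨v, hv⟩ | hx)
    · exact ⟨v, Or.inl hv⟩
    · by_cases h : x ∈ dm s
      · obtain ⟨v, hv⟩ := h
        exact ⟨v, Or.inl hv⟩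
      · exact ⟨true, mem_fill hx h⟩

/-- one step of the exploration -/
def fl {G : Type v} [SMul G X] (S : List G) (W : List X) : List X :=
  W.flatMap (fun y => S.map (fun h => h • y))

/-- the explored points after `n` steps -/
def pts {G : Type v} [SMul G X] (S T : List G) (x : X) : ℕ → List X
  | 0 => [x]
  | n + 1 => pts S T x n ++ (fl S (pts S T x n) ++ fl T (pts S T x n))

theorem card_list_lt (hX : ℵ₀ ≤ #X) (W : List X) : #({y | y ∈ W} : Set X) < #X := by
  have h : ({y | y ∈ W} : Set X).Finite := W.finite_toSet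
  exact lt_of_lt_of_le (h.lt_aleph0) hX

theorem explore {G : Type v} [SMul G X] [Infinite X] (L : (X → Bool) → List G) (x : X)
    (SA SB : Set (X → Bool)) (sA sB : Set (X × Bool)) (hA : Cd sA) (hB : Cd sB)
    (hdm : dm sA = dm sB) (hcov : ∀ y ∈ dm sA, (y, true) ∈ sA ∨ (y, true) ∈ sB)
    (hBA : Big SA sA) (hBB : Big SB sB) (n : ℕ) :
    ∃ (W : List X) (SA' SB' : Set (X → Bool)) (tA tB : Set (X × Bool)),
      SA' ⊆ SA ∧ SB' ⊆ SB ∧ Cd tA ∧ Cd tB ∧ dm tA = dm tB ∧
      (∀ y ∈ dm tA, (y, true) ∈ tA ∨ (y, true) ∈ tB) ∧ (∀ y ∈ W, y ∈ dm tA) ∧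
      Big SA' tA ∧ Big SB' tB ∧ ∀ g ∈ SA', ∀ h ∈ SB', pts (L g) (L h) x n = W := by
  have hX : ℵ₀ ≤ #X := infinite_iff.1 inferInstance
  obtain ⟨q⟩ := Cardinal.eq.1 (mk_list_eq_mk X)
  -- adding finitely many points to both domains
  have hadd : ∀ (tA tB : Set (X × Bool)) (W : List X), Cd tA → Cd tB → dm tA = dm tB →
      (∀ y ∈ dm tA, (y, true) ∈ tA ∨ (y, true) ∈ tB) →
      ∃ uA uB : Set (X × Bool), tA ⊆ uA ∧ tB ⊆ uB ∧ Cd uA ∧ Cd uB ∧ dm uA = dm uB ∧
        (∀ y ∈ dm uA, (y, true) ∈ uA ∨ (y, true) ∈ uB) ∧ ∀ y ∈ W, y ∈ dm uA := by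
    intro tA tB W h1 h2 h3 h4
    refine ⟨fill tA {y | y ∈ W}, fill tB {y | y ∈ W}, subset_fill _ _, subset_fill _ _,
      cd_fill hX h1 (card_list_lt hX W), cd_fill hX h2 (card_list_lt hX W), ?_, ?_, ?_⟩
    · rw [dm_fill, dm_fill, h3]
    · intro y hy
      rw [dm_fill] at hy
      by_cases h : y ∈ dm tA
      · rcases h4 y h with h5 | h5
        · exact Or.inl (subset_fill _ _ h5)
        · exact Or.inr (subset_fill _ _ h5)
      · rcases hy with hy | hy
        · exact (h hy).elim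
        · exact Or.inl (mem_fill hy h)
    · intro y hy
      rw [dm_fill]
      exact Or.inr hy
  induction n with
  | zero =>
    obtain ⟨uA, uB, h1, h2, h3, h4, h5, h6, h7⟩ := hadd sA sB [x] hA hB hdm hcov
    exact ⟨[x], SA, SB, uA, uB, subset_rfl, subset_rfl, h3, h4, h5, h6, h7, hBA.mono h1,
      hBB.mono h2, fun g _ h _ => rfl⟩
  | succ n ih =>
    obtain ⟨W, SA', SB', tA, tB, a1, a2, a3, a4, a5, a6, a7, a8, a9, a10⟩ := ih
    -- split A
    obtain ⟨cA, rA, b1, b2, b3⟩ := a8.split a3 q q.injective (fun g => fl (L g) W)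
    -- fill B
    have hdr : #(dm rA) < #X := card_dm_lt b2.2
    have c1 : Cd (fill tB (dm rA)) := cd_fill hX a4 hdr
    have c2 : Big SB' (fill tB (dm rA)) := a9.mono (subset_fill _ _)
    -- split B
    obtain ⟨cB, rB, d1, d2, d3⟩ := c2.split c1 q q.injective (fun h => fl (L h) W)
    -- fill A
    have hdr' : #(dm rB) < #X := card_dm_lt d2.2
    have e1 : Cd (fill rA (dm rB)) := cd_fill hX b2 hdr'
    have hsubdm : dm rA ⊆ dm rB := by
      intro y hy
      have : y ∈ dm (fill tB (dm rA)) := by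
        rw [dm_fill]
        exact Or.inr hy
      obtain ⟨v, hv⟩ := this
      exact ⟨v, d1 hv⟩
    have e2 : dm (fill rA (dm rB)) = dm rB := by
      rw [dm_fill]
      exact union_eq_self_of_subset_left hsubdm
    have e3 : ∀ y ∈ dm (fill rA (dm rB)), (y, true) ∈ fill rA (dm rB) ∨ (y, true) ∈ rB := by
      intro y hy
      rw [e2] at hy
      by_cases h : y ∈ dm rA
      · by_cases h' : y ∈ dm tA
        · rcases a6 y h' with h6 | h6
          · exact Or.inl (subset_fill _ _ (b1 h6))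
          · exact Or.inr (d1 (subset_fill _ _ h6))
        · rw [a5] at h'
          exact Or.inr (d1 (mem_fill h h'))
      · exact Or.inl (mem_fill hy h)
    obtain ⟨uA, uB, h1, h2, h3, h4, h5, h6, h7⟩ :=
      hadd (fill rA (dm rB)) rB (W ++ (cA ++ cB)) e1 d2 e2 e3
    refine ⟨W ++ (cA ++ cB), {g | g ∈ SA' ∧ fl (L g) W = cA}, {h | h ∈ SB' ∧ fl (L h) W = cB},
      uA, uB, fun g hg => a1 hg.1, fun g hg => a2 hg.1, h3, h4, h5, h6, h7,
      b3.mono ((subset_fill _ _).trans h1), d3.mono h2, ?_⟩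
    rintro g ⟨hg, hg'⟩ h ⟨hh, hh'⟩
    show pts (L g) (L h) x n ++ (fl (L g) (pts (L g) (L h) x n) ++
      fl (L h) (pts (L g) (L h) x n)) = _
    rw [a10 g hg h hh, hg', hh']

/-- The sets of measure at most `1/3` are everywhere non-meagre. -/
theorem small_big (hreg : (#X).IsRegular) (μ : Set X → ℝ) (h0 : ∀ A, 0 ≤ μ A)
    (h1 : μ Set.univ = 1) (hadd : ∀ A B : Set X, Disjoint A B → μ (A ∪ B) = μ A + μ B)
    (hnull : ∀ Z : Set X, #Z < #X → μ Z = 0) (s : Set (X × Bool)) :
    Big {g : X → Bool | μ {x | g x = true} ≤ 1 / 3} s := by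
  classical
  intro t _ hs hm
  have hX : ℵ₀ ≤ #X := hreg.aleph0_le
  obtain ⟨N, hN1, hN2⟩ := hm
  let Φ : Fin 3 → (X → Fin 3) → (X → Bool) := fun j g x =>
    if x ∈ dm t then decide ((x, true) ∈ t) else decide (g x = j)
  have hΦt : ∀ j g, Sat (Φ j g) t := by
    intro j g x b hb
    have hx : x ∈ dm t := ⟨b, hb⟩
    show (if x ∈ dm t then decide ((x, true) ∈ t) else decide (g x = j)) = b
    rw [if_pos hx]
    cases b with
    | true => simpa using hb
    | false =>
      have : (x, true) ∉ t := fun h => by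
        have := hs.1 x true false h hb
        exact absurd this (by decide)
      simpa using this
  have hnwd : ∀ (j : Fin 3) (M : Set (X → Bool)), NWD M → NWD {g | Φ j g ∈ M} := by
    intro j M hM s hs'
    -- the condition on the image
    let s' : Set (X × Bool) := t ∪ {p | p.1 ∉ dm t ∧ ∃ v, (p.1, v) ∈ s ∧ p.2 = decide (v = j)}
    have hs'1 : Cd s' := by
      constructor
      · intro x v w hv hw
        rcases hv with hv | ⟨hv1, a, ha, hv2⟩
        · rcases hw with hw | ⟨hw1, _⟩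
          · exact hs.1 x v w hv hw
          · exact (hw1 ⟨v, hv⟩).elim
        · rcases hw with hw | ⟨hw1, b, hb, hw2⟩
          · exact (hv1 ⟨w, hw⟩).elim
          · have : a = b := hs'.1 x a b ha hb
            subst this
            exact hv2.trans hw2.symm
      · apply card_union_lt hX hs.2
        have h : {p : X × Bool | p.1 ∉ dm t ∧ ∃ v, (p.1, v) ∈ s ∧ p.2 = decide (v = j)} ⊆
            (fun p : X × Fin 3 => (p.1, decide (p.2 = j))) '' s := by
          rintro ⟨x, b⟩ ⟨_, v, hv, hb⟩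
          exact ⟨(x, v), hv, by simp only at hb; rw [hb]⟩
        exact lt_of_le_of_lt ((mk_le_mk_of_subset h).trans mk_image_le) hs'.2
    obtain ⟨w, k1, k2, k3⟩ := hM s' hs'1
    obtain ⟨j', hj'⟩ : ∃ j' : Fin 3, j' ≠ j := exists_ne j
    let u : Set (X × Fin 3) := s ∪ {p | p.1 ∉ dm s ∧ ∃ b, (p.1, b) ∈ w ∧
      p.2 = if b = true then j else j'}
    refine ⟨u, subset_union_left, ⟨?_, ?_⟩, ?_⟩
    · intro x v v' hv hv'
      rcases hv with hv | ⟨hv1, a, ha, hv2⟩
      · rcases hv' with hw | ⟨hw1, _⟩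
        · exact hs'.1 x v v' hv hw
        · exact (hw1 ⟨v, hv⟩).elim
      · rcases hv' with hw | ⟨hw1, b, hb, hw2⟩
        · exact (hv1 ⟨v', hw⟩).elim
        · have : a = b := k2.1 x a b ha hb
          subst this
          exact hv2.trans hw2.symm
    · apply card_union_lt hX hs'.2
      have h : {p : X × Fin 3 | p.1 ∉ dm s ∧ ∃ b, (p.1, b) ∈ w ∧
          p.2 = if b = true then j else j'} ⊆
          (fun p : X × Bool => (p.1, if p.2 = true then j else j')) '' w := by
        rintro ⟨x, v⟩ ⟨_, b, hb, hv⟩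
        exact ⟨(x, b), hb, by simp only at hv; rw [hv]⟩
      exact lt_of_le_of_lt ((mk_le_mk_of_subset h).trans mk_image_le) k2.2
    · intro g hg hgu
      apply k3 _ hg
      intro x b hb
      by_cases hx : x ∈ dm t
      · obtain ⟨c, hc⟩ := hx
        have h1 : Φ j g x = c := hΦt j g x c hc
        have h2 : b = c := k2.1 x b c hb (k1 (Or.inl hc))
        rw [h1, h2]
      · show (if x ∈ dm t then decide ((x, true) ∈ t) else decide (g x = j)) = b
        rw [if_neg hx]
        by_cases hx' : x ∈ dm s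
        · obtain ⟨v, hv⟩ := hx'
          have h1 : g x = v := hgu x v (Or.inl hv)
          have h2 : b = decide (v = j) :=
            k2.1 x b _ hb (k1 (Or.inr ⟨hx, v, hv, rfl⟩))
          rw [h1, h2]
        · have h1 : g x = if b = true then j else j' := hgu x _ (Or.inr ⟨hx', b, hb, rfl⟩)
          rw [h1]
          cases b with
          | true => simp
          | false => simpa using hj'
  haveI : Infinite X := infinite_iff.2 hX
  obtain ⟨g, hg, hgN⟩ := baire (V := Fin 3) hreg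
    (fun ξ => ({g | Φ 0 g ∈ N ξ} ∪ {g | Φ 1 g ∈ N ξ}) ∪ {g | Φ 2 g ∈ N ξ})
    (fun ξ => ((hnwd 0 _ (hN1 ξ)).union (hnwd 1 _ (hN1 ξ))).union (hnwd 2 _ (hN1 ξ)))
    (∅ : Set (X × Fin 3)) ⟨fun x v w h => (Set.notMem_empty _ h).elim, by
      rw [mk_eq_zero]
      exact lt_of_lt_of_le aleph0_pos hX⟩
  have hnot : ∀ j ξ, Φ j g ∉ N ξ := by
    intro j ξ h
    apply hgN ξ
    fin_cases j
    · exact Or.inl (Or.inl h)
    · exact Or.inl (Or.inr h)
    · exact Or.inr h
  have hlarge : ∀ j, 1 / 3 < μ {x | Φ j g x = true} := by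
    intro j
    by_contra hcon
    push Not at hcon
    obtain ⟨ξ, hξ⟩ := hN2 (Φ j g) ⟨hcon, hΦt j g⟩
    exact hnot j ξ hξ
  let B : Fin 3 → Set X := fun j => {x | x ∉ dm t ∧ g x = j}
  have hB : ∀ j, 1 / 3 < μ (B j) := by
    intro j
    have h2 : {x | Φ j g x = true} = ({x | Φ j g x = true} ∩ dm t) ∪ B j := by
      ext x
      constructor
      · intro hx
        by_cases hxt : x ∈ dm t
        · exact Or.inl ⟨hx, hxt⟩
        · refine Or.inr ⟨hxt, ?_⟩
          have h3 : (if x ∈ dm t then decide ((x, true) ∈ t) else decide (g x = j)) = true := hx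
          rw [if_neg hxt] at h3
          exact of_decide_eq_true h3
      · rintro (hx | ⟨hxt, hx⟩)
        · exact hx.1
        · show (if x ∈ dm t then decide ((x, true) ∈ t) else decide (g x = j)) = true
          rw [if_neg hxt]
          exact decide_eq_true hx
    have h3 : Disjoint ({x | Φ j g x = true} ∩ dm t) (B j) := by
      rw [Set.disjoint_left]
      rintro x ⟨_, hx⟩ ⟨hx', _⟩
      exact hx' hx
    have h4 : μ ({x | Φ j g x = true} ∩ dm t) = 0 :=
      hnull _ (lt_of_le_of_lt (mk_le_mk_of_subset inter_subset_right) (card_dm_lt hs.2))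
    have h5 := hlarge j
    rw [h2, hadd _ _ h3, h4, zero_add] at h5
    exact h5
  have hd1 : Disjoint (B 0) (B 1) := by
    rw [Set.disjoint_left]
    rintro x ⟨_, hx⟩ ⟨_, hx'⟩
    rw [hx] at hx'
    exact absurd hx' (by decide)
  have hd2 : Disjoint (B 0 ∪ B 1) (B 2) := by
    rw [Set.disjoint_left]
    rintro x (⟨_, hx⟩ | ⟨_, hx⟩) ⟨_, hx'⟩
    · rw [hx] at hx'
      exact absurd hx' (by decide)
    · rw [hx] at hx'
      exact absurd hx' (by decide)
  have h2 : μ (B 0 ∪ B 1 ∪ B 2) ≤ 1 := by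
    have h3 := hadd (B 0 ∪ B 1 ∪ B 2) (B 0 ∪ B 1 ∪ B 2)ᶜ disjoint_compl_right
    rw [union_compl_self, h1] at h3
    have := h0 (B 0 ∪ B 1 ∪ B 2)ᶜ
    linarith
  rw [hadd _ _ hd2, hadd _ _ hd1] at h2
  have h3 := hB 0
  have h4 := hB 1
  have h5 := hB 2
  linarith

end Pool.Agent.Helper63.INV
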