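import Mathlib

/-! Folner sets: counting, connected Folner sets, limit means. -/

set_option autoImplicit false

namespace Pool.Agent.Helper63.INV

open Set Filter Topology

universe u v

variable {G : Type v} [Group G]

open Classical in
/-- number of `t` in `T` with `p t` -/
noncomputable def cnt (T : Finset G) (p : G → Prop) : ℕ := (T.filter p).card

theorem cnt_eq (T : Finset G) (p : G → Prop) [DecidablePred p] :
    cnt T p = (T.filter p).card := by
  unfold cnt
  rw [Finset.filter_congr_decidable]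

/-- number of `t` in `T` with `g * t` outside `T` -/
noncomputable def bd (g : G) (T : Finset G) : ℕ := cnt T (fun t => g * t ∉ T)

theorem cnt_le_card (T : Finset G) (p : G → Prop) : cnt T p ≤ T.card := by
  classical
  unfold cnt
  exact Finset.card_filter_le _ _

theorem cnt_mono (T : Finset G) {p q : G → Prop} (h : ∀ t ∈ T, p t → q t) :
    cnt T p ≤ cnt T q := by
  classical
  unfold cnt
  apply Finset.card_le_card
  intro t ht
  rw [Finset.mem_filter] at ht ⊢
  exact ⟨ht.1, h t ht.1 ht.2⟩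

theorem cnt_congr (T : Finset G) {p q : G → Prop} (h : ∀ t ∈ T, (p t ↔ q t)) :
    cnt T p = cnt T q :=
  le_antisymm (cnt_mono T fun t ht => (h t ht).1) (cnt_mono T fun t ht => (h t ht).2)

theorem cnt_or_le (T : Finset G) (p q : G → Prop) :
    cnt T (fun t => p t ∨ q t) ≤ cnt T p + cnt T q := by
  classical
  rw [cnt_eq, cnt_eq, cnt_eq, Finset.filter_or]
  exact Finset.card_union_le _ _

theorem cnt_or_disj (T : Finset G) (p q : G → Prop) (h : ∀ t ∈ T, ¬ (p t ∧ q t)) :
    cnt T (fun t => p t ∨ q t) = cnt T p + cnt T q := by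
  classical
  rw [cnt_eq, cnt_eq, cnt_eq, Finset.filter_or]
  apply Finset.card_union_of_disjoint
  rw [Finset.disjoint_left]
  intro t ht ht'
  rw [Finset.mem_filter] at ht ht'
  exact h t ht.1 ⟨ht.2, ht'.2⟩

theorem cnt_true (T : Finset G) : cnt T (fun _ => True) = T.card := by
  classical
  rw [cnt_eq, Finset.filter_true_of_mem]
  intro _ _
  trivial

theorem cnt_not (T : Finset G) (p : G → Prop) : cnt T p + cnt T (fun t => ¬ p t) = T.card := by
  rw [← cnt_or_disj T p (fun t => ¬ p t) (fun t _ h => h.2 h.1), ← cnt_true T]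
  exact cnt_congr T (fun t _ => ⟨fun _ => trivial, fun _ => em (p t)⟩)

theorem cnt_inj (T S : Finset G) (p q : G → Prop) (g : G)
    (h : ∀ t ∈ T, p t → g * t ∈ S ∧ q (g * t)) : cnt T p ≤ cnt S q := by
  classical
  unfold cnt
  apply Finset.card_le_card_of_injOn (fun t => g * t)
  · intro t ht
    have ht' := Finset.mem_filter.1 (Finset.mem_coe.1 ht)
    exact Finset.mem_coe.2 (Finset.mem_filter.2 (h t ht'.1 ht'.2))
  · intro a _ b _ hab
    exact mul_left_cancel hab

theorem bd_inv (g : G) (T : Finset G) : cnt T (fun t => g⁻¹ * t ∉ T) = bd g T := by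
  have h1 := cnt_not T (fun t => g * t ∈ T)
  have h2 := cnt_not T (fun t => g⁻¹ * t ∈ T)
  have h3 : cnt T (fun t => g * t ∈ T) ≤ cnt T (fun t => g⁻¹ * t ∈ T) :=
    cnt_inj T T _ _ g (fun t ht h => ⟨h, by rw [inv_mul_cancel_left]; exact ht⟩)
  have h4 : cnt T (fun t => g⁻¹ * t ∈ T) ≤ cnt T (fun t => g * t ∈ T) :=
    cnt_inj T T _ _ g⁻¹ (fun t ht h => ⟨h, by rw [mul_inv_cancel_left]; exact ht⟩)
  unfold bd
  omega

theorem cnt_mul_le (g : G) (T : Finset G) (p : G → Prop) :
    cnt T (fun t => p (g * t)) ≤ cnt T p + bd g T := by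
  have h1 : cnt T (fun t => p (g * t)) ≤
      cnt T (fun t => (p (g * t) ∧ g * t ∈ T) ∨ g * t ∉ T) := by
    apply cnt_mono
    intro t _ h
    by_cases h' : g * t ∈ T
    · exact Or.inl ⟨h, h'⟩
    · exact Or.inr h'
  have h2 := cnt_or_le T (fun t => p (g * t) ∧ g * t ∈ T) (fun t => g * t ∉ T)
  have h3 : cnt T (fun t => p (g * t) ∧ g * t ∈ T) ≤ cnt T p :=
    cnt_inj T T _ _ g (fun t _ h => ⟨h.2, h.1⟩)
  unfold bd
  omega

theorem cnt_le_mul (g : G) (T : Finset G) (p : G → Prop) :
    cnt T p ≤ cnt T (fun t => p (g * t)) + bd g T := by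
  have h0 := cnt_mul_le g⁻¹ T (fun t => p (g * t))
  simp only [mul_inv_cancel_left] at h0
  have h1 : bd g⁻¹ T = bd g T := by
    rw [← bd_inv]
    unfold bd
    rw [inv_inv]
  have h2 : cnt T (fun t => p t) = cnt T p := rfl
  omega

/-- growth of a connected finite set -/
def Rch (D : Set G) (a : G) : ℕ → Set G
  | 0 => {a}
  | n + 1 => Rch D a n ∪ {b | ∃ w ∈ Rch D a n, ∃ e ∈ D, b = e * w ∨ w = e * b}

theorem rch_mono (D : Set G) (a : G) {m n : ℕ} (h : m ≤ n) : Rch D a m ⊆ Rch D a n := by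
  induction h with
  | refl => exact subset_rfl
  | step _ ih => exact ih.trans subset_union_left

theorem subset_rch (D : Set G) (T : Finset G) (a : G) (ha : a ∈ T)
    (hconn : ∀ Q : Finset G, Q ⊆ T → Q.Nonempty → Q ≠ T →
      ∃ w ∈ Q, ∃ b ∈ T, b ∉ Q ∧ ∃ e ∈ D, b = e * w ∨ w = e * b) (N : ℕ) (hN : T.card ≤ N) :
    ∀ t ∈ T, t ∈ Rch D a N := by
  classical
  have key : ∀ n, (∀ t ∈ T, t ∈ Rch D a n) ∨ n + 1 ≤ (T.filter (fun t => t ∈ Rch D a n)).card := by
    intro n
    induction n with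
    | zero =>
      right
      rw [zero_add, Nat.one_le_iff_ne_zero, Finset.card_ne_zero]
      exact ⟨a, Finset.mem_filter.2 ⟨ha, rfl⟩⟩
    | succ n ih =>
      rcases ih with ih | ih
      · left
        intro t ht
        exact Or.inl (ih t ht)
      · by_cases hT : ∀ t ∈ T, t ∈ Rch D a n
        · left
          intro t ht
          exact Or.inl (hT t ht)
        · right
          have hne : T.filter (fun t => t ∈ Rch D a n) ≠ T := by
            intro h
            apply hT
            intro t ht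
            rw [← h, Finset.mem_filter] at ht
            exact ht.2
          have hno : (T.filter (fun t => t ∈ Rch D a n)).Nonempty := by
            rw [← Finset.card_pos]
            omega
          obtain ⟨w, hw, b, hb, hbQ, e, he, hwb⟩ := hconn _ (Finset.filter_subset _ _) hno hne
          rw [Finset.mem_filter] at hw
          have hb' : b ∈ Rch D a (n + 1) := Or.inr ⟨w, hw.2, e, he, hwb⟩
          have hlt : (T.filter (fun t => t ∈ Rch D a n)).card <
              (T.filter (fun t => t ∈ Rch D a (n + 1))).card := by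
            apply Finset.card_lt_card
            rw [Finset.ssubset_iff_of_subset]
            · exact ⟨b, Finset.mem_filter.2 ⟨hb, hb'⟩, hbQ⟩
            · intro t ht
              rw [Finset.mem_filter] at ht ⊢
              exact ⟨ht.1, Or.inl ht.2⟩
          omega
  intro t ht
  rcases key T.card with h | h
  · exact rch_mono D a hN (h t ht)
  · have := Finset.card_filter_le T (fun t => t ∈ Rch D a T.card)
    omega

/-- total boundary weight -/
noncomputable def wt (E F : Finset G) (T : Finset G) : ℝ :=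
  (∑ e ∈ E, (bd e T : ℝ)) / E.card + (∑ f ∈ F, (bd f T : ℝ)) / F.card

theorem exists_conn (E F : Finset G) (N : ℕ) (c : ℝ)
    (h : ∃ T : Finset G, T.Nonempty ∧ T.card ≤ N ∧ wt E F T ≤ c * T.card) :
    ∃ T : Finset G, T.Nonempty ∧ T.card ≤ N ∧ wt E F T ≤ c * T.card ∧
      ∀ Q : Finset G, Q ⊆ T → Q.Nonempty → Q ≠ T →
      ∃ w ∈ Q, ∃ b ∈ T, b ∉ Q ∧ ∃ e ∈ {e : G | e ∈ E ∨ e ∈ F}, b = e * w ∨ w = e * b := by
  classical
  have hex : ∃ n, ∃ T : Finset G, (T.Nonempty ∧ T.card ≤ N ∧ wt E F T ≤ c * T.card) ∧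
      T.card = n := by
    obtain ⟨T, hT⟩ := h
    exact ⟨T.card, T, hT, rfl⟩
  obtain ⟨T, ⟨h1, h2, h3⟩, h4⟩ := Nat.find_spec hex
  have hmin : ∀ T' : Finset G, T'.Nonempty → T'.card ≤ N → wt E F T' ≤ c * T'.card →
      T.card ≤ T'.card := by
    intro T' k1 k2 k3
    rw [h4]
    exact Nat.find_min' hex ⟨T', ⟨k1, k2, k3⟩, rfl⟩
  refine ⟨T, h1, h2, h3, ?_⟩
  intro Q hQT hQ hne
  by_contra hcon
  push Not at hcon
  have hsplit : ∀ e, (e ∈ E ∨ e ∈ F) → bd e T = bd e Q + bd e (T \ Q) := by
    intro e he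
    unfold bd
    rw [cnt_eq, cnt_eq, cnt_eq]
    have hu : T.filter (fun t => e * t ∉ T) = Q.filter (fun t => e * t ∉ Q) ∪
        (T \ Q).filter (fun t => e * t ∉ T \ Q) := by
      ext t
      simp only [Finset.mem_filter, Finset.mem_union, Finset.mem_sdiff]
      constructor
      · rintro ⟨ht, het⟩
        by_cases htQ : t ∈ Q
        · exact Or.inl ⟨htQ, fun h => het (hQT h)⟩
        · exact Or.inr ⟨⟨ht, htQ⟩, fun h => het h.1⟩
      · rintro (⟨ht, het⟩ | ⟨⟨ht, htQ⟩, het⟩)
        · refine ⟨hQT ht, fun hT => ?_⟩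
          exact (hcon t ht (e * t) hT het e he).1 rfl
        · refine ⟨ht, fun hT => ?_⟩
          have heQ : e * t ∈ Q := by
            by_contra h
            exact het ⟨hT, h⟩
          exact (hcon (e * t) heQ t ht htQ e he).2 rfl
    rw [hu]
    apply Finset.card_union_of_disjoint
    rw [Finset.disjoint_left]
    intro t ht ht'
    rw [Finset.mem_filter] at ht ht'
    exact (Finset.mem_sdiff.1 ht'.1).2 ht.1
  have hw : wt E F T = wt E F Q + wt E F (T \ Q) := by
    unfold wt
    have hE : (∑ e ∈ E, (bd e T : ℝ)) = ∑ e ∈ E, (bd e Q : ℝ) + ∑ e ∈ E, (bd e (T \ Q) : ℝ) := by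
      rw [← Finset.sum_add_distrib]
      apply Finset.sum_congr rfl
      intro e he
      rw [hsplit e (Or.inl he)]
      push_cast
      ring
    have hF : (∑ e ∈ F, (bd e T : ℝ)) = ∑ e ∈ F, (bd e Q : ℝ) + ∑ e ∈ F, (bd e (T \ Q) : ℝ) := by
      rw [← Finset.sum_add_distrib]
      apply Finset.sum_congr rfl
      intro e he
      rw [hsplit e (Or.inr he)]
      push_cast
      ring
    rw [hE, hF]
    ring
  have hcard : (T \ Q).card + Q.card = T.card := Finset.card_sdiff_add_card_eq_card hQT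
  have hQpos : 0 < Q.card := Finset.card_pos.2 hQ
  have hTQ : (T \ Q).Nonempty := by
    rw [Finset.sdiff_nonempty]
    intro h
    exact hne (Finset.Subset.antisymm hQT h)
  have hTQpos : 0 < (T \ Q).card := Finset.card_pos.2 hTQ
  have hcast : ((T \ Q).card : ℝ) + Q.card = T.card := by exact_mod_cast hcard
  by_cases hQw : wt E F Q ≤ c * Q.card
  · have := hmin Q hQ (by omega) hQw
    omega
  · have : wt E F (T \ Q) ≤ c * (T \ Q).card := by
      push Not at hQw
      have h5 : c * (T.card : ℝ) = c * (T \ Q).card + c * Q.card := by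
        rw [← hcast]
        ring
      linarith
    have := hmin (T \ Q) hTQ (by omega) this
    omega

/-- An invariant mean as an ultralimit. -/
theorem limit_mean {X : Type u} [MulAction G X]
    (hF : ∀ (E : Finset G) (δ : ℝ), 0 < δ → ∃ T : Finset G, T.Nonempty ∧
      ∀ g ∈ E, (bd g T : ℝ) ≤ δ * T.card) (x : Finset G → X) :
    ∃ M : Set X → ℝ, ((∀ A : Set X, 0 ≤ M A ∧ M A ≤ 1) ∧ M Set.univ = 1 ∧
      (∀ A B : Set X, Disjoint A B → M (A ∪ B) = M A + M B) ∧
      (∀ (g : G) (A : Set X), M ((fun x : X => g • x) ⁻¹' A) = M A)) ∧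
      (∀ (A : Set X) (c : ℝ), (∀ T : Finset G, T.Nonempty →
        c * T.card ≤ cnt T (fun t => t • x T ∈ A)) → c ≤ M A) ∧
      (∀ (A : Set X) (c : ℝ), (∀ T : Finset G, T.Nonempty →
        (cnt T (fun t => t • x T ∈ A) : ℝ) ≤ c * T.card) → M A ≤ c) := by
  classical
  have hpos : ∀ n : ℕ, (0 : ℝ) < 1 / ((n : ℝ) + 1) := fun n => Nat.one_div_pos_of_nat
  choose T hT1 hT2 using fun i : Finset G × ℕ => hF i.1 (1 / ((i.2 : ℝ) + 1)) (hpos i.2)
  have hc : ∀ i, (0 : ℝ) < (T i).card := fun i => by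
    exact_mod_cast Finset.card_pos.2 (hT1 i)
  let m : Finset G × ℕ → Set X → ℝ := fun i A =>
    (cnt (T i) (fun t => t • x (T i) ∈ A) : ℝ) / (T i).card
  have hm0 : ∀ i A, 0 ≤ m i A := fun i A => by positivity
  have hm1 : ∀ i A, m i A ≤ 1 := by
    intro i A
    show (cnt (T i) (fun t => t • x (T i) ∈ A) : ℝ) / (T i).card ≤ 1
    rw [div_le_one (hc i)]
    exact_mod_cast cnt_le_card _ _
  let U : Ultrafilter (Finset G × ℕ) := Ultrafilter.of atTop
  have hU : (U : Filter (Finset G × ℕ)) ≤ atTop := Ultrafilter.of_le atTop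
  have hlim : ∀ A : Set X, ∃ a ∈ Icc (0 : ℝ) 1, Tendsto (fun i => m i A) U (𝓝 a) := by
    intro A
    have h1 : (U.map (fun i => m i A) : Filter ℝ) ≤ 𝓟 (Icc 0 1) := by
      rw [le_principal_iff]
      exact Filter.mem_map.2 (Filter.univ_mem' (fun i => ⟨hm0 i A, hm1 i A⟩))
    obtain ⟨a, ha, h2⟩ := isCompact_Icc.ultrafilter_le_nhds _ h1
    exact ⟨a, ha, h2⟩
  choose M hM1 hM2 using hlim
  refine ⟨M, ⟨fun A => ⟨(hM1 A).1, (hM1 A).2⟩, ?_, ?_, ?_⟩, ?_, ?_⟩
  · have h1 : ∀ i, m i Set.univ = 1 := by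
      intro i
      show (cnt (T i) (fun t => t • x (T i) ∈ Set.univ) : ℝ) / (T i).card = 1
      have : cnt (T i) (fun t => t • x (T i) ∈ Set.univ) = (T i).card := by
        rw [← cnt_true (T i)]
        exact cnt_congr _ (fun t _ => ⟨fun _ => trivial, fun _ => mem_univ _⟩)
      rw [this]
      exact div_self (hc i).ne'
    have h2 := hM2 Set.univ
    simp only [h1] at h2
    exact tendsto_nhds_unique h2 tendsto_const_nhds
  · intro A B hAB
    have h1 : ∀ i, m i (A ∪ B) = m i A + m i B := by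
      intro i
      show (cnt (T i) (fun t => t • x (T i) ∈ A ∪ B) : ℝ) / (T i).card = _ / _ + _ / _
      have : cnt (T i) (fun t => t • x (T i) ∈ A ∪ B) =
          cnt (T i) (fun t => t • x (T i) ∈ A) + cnt (T i) (fun t => t • x (T i) ∈ B) :=
        cnt_or_disj (T i) _ _ (fun t _ h => (Set.disjoint_left.1 hAB) h.1 h.2)
      rw [this, ← add_div]
      push_cast
      rfl
    have h2 := hM2 (A ∪ B)
    simp only [h1] at h2
    exact tendsto_nhds_unique h2 ((hM2 A).add (hM2 B))
  · intro g A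
    have h0 : ∀ i : Finset G × ℕ, g ∈ i.1 →
        |m i ((fun x : X => g • x) ⁻¹' A) - m i A| ≤ 1 / ((i.2 : ℝ) + 1) := by
      intro i hi
      have h1 := cnt_mul_le g (T i) (fun t => t • x (T i) ∈ A)
      have h2 := cnt_le_mul g (T i) (fun t => t • x (T i) ∈ A)
      have h3 : cnt (T i) (fun t => t • x (T i) ∈ (fun x : X => g • x) ⁻¹' A) =
          cnt (T i) (fun t => (g * t) • x (T i) ∈ A) := by
        apply cnt_congr
        intro t _
        rw [mul_smul]
        rfl
      have h4 := hT2 i g hi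
      have h5 : m i ((fun x : X => g • x) ⁻¹' A) - m i A =
          ((cnt (T i) (fun t => (g * t) • x (T i) ∈ A) : ℝ) -
            cnt (T i) (fun t => t • x (T i) ∈ A)) / (T i).card := by
        rw [sub_div, ← h3]
      have h1' : (cnt (T i) (fun t => (g * t) • x (T i) ∈ A) : ℝ) ≤
          cnt (T i) (fun t => t • x (T i) ∈ A) + bd g (T i) := by exact_mod_cast h1
      have h2' : (cnt (T i) (fun t => t • x (T i) ∈ A) : ℝ) ≤
          cnt (T i) (fun t => (g * t) • x (T i) ∈ A) + bd g (T i) := by exact_mod_cast h2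
      rw [h5, abs_div, abs_of_pos (hc i), div_le_iff₀ (hc i), abs_le]
      constructor <;> linarith
    have h1 : Tendsto (fun i : Finset G × ℕ => m i ((fun x : X => g • x) ⁻¹' A) - m i A)
        U (𝓝 0) := by
      have h2 : Tendsto (fun i : Finset G × ℕ => 1 / ((i.2 : ℝ) + 1)) U (𝓝 0) := by
        have h3 : Tendsto (fun i : Finset G × ℕ => i.2) (atTop : Filter (Finset G × ℕ)) atTop := by
          rw [← prod_atTop_atTop_eq]
          exact tendsto_snd
        exact (tendsto_one_div_add_atTop_nhds_zero_nat (𝕜 := ℝ)).comp (h3.mono_left hU)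
      apply squeeze_zero_norm' _ h2
      have h4 : ∀ᶠ i : Finset G × ℕ in atTop, g ∈ i.1 := by
        filter_upwards [eventually_ge_atTop (({g} : Finset G), 0)] with i hi
        exact hi.1 (Finset.mem_singleton_self g)
      filter_upwards [hU h4] with i hi
      exact h0 i hi
    have h2 := (hM2 ((fun x : X => g • x) ⁻¹' A)).sub (hM2 A)
    have h3 := tendsto_nhds_unique h2 h1
    linarith
  · intro A c h
    apply ge_of_tendsto (hM2 A)
    apply Filter.Eventually.of_forall
    intro i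
    show c ≤ (cnt (T i) (fun t => t • x (T i) ∈ A) : ℝ) / (T i).card
    rw [le_div_iff₀ (hc i)]
    exact h _ (hT1 i)
  · intro A c h
    apply le_of_tendsto (hM2 A)
    apply Filter.Eventually.of_forall
    intro i
    show (cnt (T i) (fun t => t • x (T i) ∈ A) : ℝ) / (T i).card ≤ c
    rw [div_le_iff₀ (hc i)]
    exact h _ (hT1 i)

end Pool.Agent.Helper63.INV
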