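import Pool.Agent.Helper63.INV.Exp
import Pool.Agent.Helper63.INV.Fol

/-! At least two invariant means: uniform Folner bounds and regular cardinality. -/

set_option autoImplicit false

namespace Pool.Agent.Helper63.INV

open Cardinal Set

universe u v w

theorem card_bad_lt {G : Type v} [Group G] {X : Type u} [MulAction G X] (hX : ℵ₀ ≤ #X)
    (Z : Set X) (hZ : #Z < #X) (T : Finset G) : #({x : X | ∃ t ∈ T, t • x ∈ Z} : Set X) < #X := by
  classical
  induction T using Finset.induction_on with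
  | empty =>
    have h : ({x : X | ∃ t ∈ (∅ : Finset G), t • x ∈ Z} : Set X) = ∅ := by
      ext x
      constructor
      · rintro ⟨t, ht, _⟩
        exact (Finset.notMem_empty t ht).elim
      · intro h
        exact h.elim
    rw [h, mk_eq_zero]
    exact lt_of_lt_of_le aleph0_pos hX
  | insert a s _ ih =>
    have h : ({x : X | ∃ t ∈ insert a s, t • x ∈ Z} : Set X) ⊆
        ((fun x : X => a • x) ⁻¹' Z) ∪ {x : X | ∃ t ∈ s, t • x ∈ Z} := by
      rintro x ⟨t, ht, hx⟩
      rcases Finset.mem_insert.1 ht with rfl | ht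
      · exact Or.inl hx
      · exact Or.inr ⟨t, ht, hx⟩
    apply lt_of_le_of_lt (mk_le_mk_of_subset h)
    apply lt_of_le_of_lt (mk_union_le _ _)
    apply add_lt_of_lt hX _ ih
    exact lt_of_le_of_lt (mk_preimage_of_injective _ _ (MulAction.injective a)) hZ

/-- points reached in the group are explored -/
theorem smul_mem_pts {G : Type v} [Group G] {X : Type u} [MulAction G X] (D : Set G)
    (S S' : List G) (hD : ∀ e ∈ D, (e ∈ S ∧ e⁻¹ ∈ S) ∨ (e ∈ S' ∧ e⁻¹ ∈ S')) (a : G) (x y : X)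
    (hx : a • y = x) (n : ℕ) : ∀ t ∈ Rch D a n, t • y ∈ pts S S' x n := by
  induction n with
  | zero =>
    intro t ht
    have ht' : t = a := ht
    subst ht'
    rw [hx]
    exact List.mem_singleton.2 rfl
  | succ n ih =>
    intro t ht
    rcases ht with ht | ⟨r, hr, e, he, hb⟩
    · exact List.mem_append_left _ (ih t ht)
    · have hr' := ih r hr
      have key : ∀ (h : G), (h ∈ S ∨ h ∈ S') → t = h * r → t • y ∈ pts S S' x (n + 1) := by
        intro h hh hth
        apply List.mem_append_right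
        rw [hth, mul_smul]
        rcases hh with hh | hh
        · apply List.mem_append_left
          exact List.mem_flatMap.2 ⟨r • y, hr', List.mem_map.2 ⟨h, hh, rfl⟩⟩
        · apply List.mem_append_right
          exact List.mem_flatMap.2 ⟨r • y, hr', List.mem_map.2 ⟨h, hh, rfl⟩⟩
      rcases hb with hb | hb
      · rcases hD e he with h | h
        · exact key e (Or.inl h.1) hb
        · exact key e (Or.inr h.1) hb
      · have hb' : t = e⁻¹ * r := by rw [hb, inv_mul_cancel_left]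
        rcases hD e he with h | h
        · exact key e⁻¹ (Or.inl h.2) hb'
        · exact key e⁻¹ (Or.inr h.2) hb'

/-- density estimate along an almost invariant finite set -/
theorem density {G : Type v} [Group G] {X : Type u} [MulAction G X] (E T : Finset G)
    (hE : E.Nonempty) (A : Set X) (y : X)
    (h : ∀ x : X, 8 * cnt E (fun e => e • x ∈ A) ≤ 3 * E.card) :
    (cnt T (fun t => t • y ∈ A) : ℝ) ≤ 3 / 8 * T.card + (∑ e ∈ E, (bd e T : ℝ)) / E.card := by
  classical
  have hc : (0 : ℝ) < E.card := by exact_mod_cast Finset.card_pos.2 hE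
  have h1 : ∀ e ∈ E, cnt T (fun t => t • y ∈ A) ≤ cnt T (fun t => (e * t) • y ∈ A) + bd e T :=
    fun e _ => cnt_le_mul e T (fun t => t • y ∈ A)
  have h2 : E.card * cnt T (fun t => t • y ∈ A) ≤
      ∑ e ∈ E, cnt T (fun t => (e * t) • y ∈ A) + ∑ e ∈ E, bd e T := by
    rw [← Finset.sum_add_distrib, ← smul_eq_mul, ← Finset.sum_const]
    exact Finset.sum_le_sum h1
  have h3 : ∑ e ∈ E, cnt T (fun t => (e * t) • y ∈ A) =
      ∑ t ∈ T, cnt E (fun e => e • (t • y) ∈ A) := by
    have k1 : ∀ e ∈ E, cnt T (fun t => (e * t) • y ∈ A) =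
        ∑ t ∈ T, if e • (t • y) ∈ A then 1 else 0 := by
      intro e _
      rw [← Finset.card_filter, ← cnt_eq]
      apply cnt_congr
      intro t _
      rw [mul_smul]
    have k2 : ∀ t ∈ T, cnt E (fun e => e • (t • y) ∈ A) =
        ∑ e ∈ E, if e • (t • y) ∈ A then 1 else 0 := by
      intro t _
      rw [← Finset.card_filter, ← cnt_eq]
    rw [Finset.sum_congr rfl k1, Finset.sum_congr rfl k2, Finset.sum_comm]
  have h4 : 8 * ∑ t ∈ T, cnt E (fun e => e • (t • y) ∈ A) ≤ 3 * (E.card * T.card) := by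
    rw [Finset.mul_sum]
    calc ∑ t ∈ T, 8 * cnt E (fun e => e • (t • y) ∈ A) ≤ ∑ _t ∈ T, 3 * E.card :=
          Finset.sum_le_sum (fun t _ => h (t • y))
      _ = 3 * (E.card * T.card) := by rw [Finset.sum_const, smul_eq_mul]; ring
  rw [h3] at h2
  have h2' : (E.card : ℝ) * cnt T (fun t => t • y ∈ A) ≤
      ((∑ t ∈ T, cnt E (fun e => e • (t • y) ∈ A) : ℕ) : ℝ) + ∑ e ∈ E, (bd e T : ℝ) := by
    exact_mod_cast h2
  have h4' : (8 : ℝ) * ((∑ t ∈ T, cnt E (fun e => e • (t • y) ∈ A) : ℕ) : ℝ) ≤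
      3 * (E.card * T.card) := by exact_mod_cast h4
  have h5 : (cnt T (fun t => t • y ∈ A) : ℝ) ≤
      (3 / 8 * T.card * E.card + ∑ e ∈ E, (bd e T : ℝ)) / E.card := by
    rw [le_div_iff₀ hc]
    linarith
  rw [add_div, mul_div_assoc, div_self hc.ne', mul_one] at h5
  exact h5

theorem main {G : Type v} [Group G] {X : Type u} [MulAction G X] (hreg : (#X).IsRegular)
    {I : Type w} (e : I → X) (he : Function.Injective e) (C : I → Set (Finset G))
    (hC : ∀ E : Finset G, ∃ a, E ∈ C a)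
    (hU : ∀ (a b : I) (δ : ℝ), 0 < δ → ∃ N : ℕ, ∀ E ∈ C a, ∀ F ∈ C b, ∃ T : Finset G,
      T.Nonempty ∧ T.card ≤ N ∧ ∀ g : G, (g ∈ E ∨ g ∈ F) → (bd g T : ℝ) ≤ δ * T.card) :
    ∃ μ ν : Set X → ℝ, μ ≠ ν ∧
      ((∀ A : Set X, 0 ≤ μ A ∧ μ A ≤ 1) ∧ μ Set.univ = 1 ∧
        (∀ A B : Set X, Disjoint A B → μ (A ∪ B) = μ A + μ B) ∧
        (∀ (g : G) (A : Set X), μ ((fun x : X => g • x) ⁻¹' A) = μ A)) ∧
      ((∀ A : Set X, 0 ≤ ν A ∧ ν A ≤ 1) ∧ ν Set.univ = 1 ∧
        (∀ A B : Set X, Disjoint A B → ν (A ∪ B) = ν A + ν B) ∧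
        (∀ (g : G) (A : Set X), ν ((fun x : X => g • x) ⁻¹' A) = ν A)) := by
  classical
  by_contra hcon
  have hX : ℵ₀ ≤ #X := hreg.aleph0_le
  have hinf : Infinite X := infinite_iff.2 hX
  have hF : ∀ (E : Finset G) (δ : ℝ), 0 < δ → ∃ T : Finset G, T.Nonempty ∧
      ∀ g ∈ E, (bd g T : ℝ) ≤ δ * T.card := by
    intro E δ hδ
    obtain ⟨a, ha⟩ := hC E
    obtain ⟨N, hN⟩ := hU a a δ hδ
    obtain ⟨T, h1, _, h3⟩ := hN E ha E ha
    exact ⟨T, h1, fun g hg => h3 g (Or.inl hg)⟩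
  obtain ⟨μ, hμ, _⟩ := limit_mean hF (fun _ => Classical.arbitrary X)
  have huniq : ∀ M : Set X → ℝ, ((∀ A : Set X, 0 ≤ M A ∧ M A ≤ 1) ∧ M Set.univ = 1 ∧
      (∀ A B : Set X, Disjoint A B → M (A ∪ B) = M A + M B) ∧
      (∀ (g : G) (A : Set X), M ((fun x : X => g • x) ⁻¹' A) = M A)) → M = μ := by
    intro M hM
    by_contra hne
    exact hcon ⟨M, μ, hne, hM, hμ⟩
  -- small sets are null
  have hnull : ∀ Z : Set X, #Z < #X → μ Z = 0 := by
    intro Z hZ
    have hx : ∀ T : Finset G, ∃ x : X, ∀ t ∈ T, t • x ∉ Z := by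
      intro T
      by_contra h
      push Not at h
      have h1 := card_bad_lt hX Z hZ T
      have h2 : ({x : X | ∃ t ∈ T, t • x ∈ Z} : Set X) = Set.univ := by
        ext x
        exact ⟨fun _ => mem_univ _, fun _ => h x⟩
      rw [h2, mk_univ] at h1
      exact lt_irrefl _ h1
    choose x hx using hx
    obtain ⟨M, hM, _, hM2⟩ := limit_mean hF x
    have h1 : M Z ≤ 0 := by
      apply hM2
      intro T _
      have : cnt T (fun t => t • x T ∈ Z) = 0 := by
        rw [cnt_eq, Finset.card_eq_zero, Finset.filter_eq_empty_iff]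
        intro t ht
        exact hx T t ht
      rw [this]
      simp
    rw [← huniq M hM]
    exact le_antisymm h1 (hM.1 Z).1
  -- averaging sets
  have havg : ∀ A : Set X, μ A ≤ 1 / 3 → ∃ E : Finset G, E.Nonempty ∧
      ∀ x : X, 8 * cnt E (fun t => t • x ∈ A) ≤ 3 * E.card := by
    intro A hA
    by_contra h
    push Not at h
    have h' : ∀ E : Finset G, ∃ x : X, E.Nonempty →
        3 * E.card < 8 * cnt E (fun t => t • x ∈ A) := by
      intro E
      by_cases hE : E.Nonempty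
      · obtain ⟨x, hx⟩ := h E hE
        exact ⟨x, fun _ => hx⟩
      · exact ⟨Classical.arbitrary X, fun h => (hE h).elim⟩
    choose x hx using h'
    obtain ⟨M, hM, hM1, _⟩ := limit_mean hF x
    have h1 : 3 / 8 ≤ M A := by
      apply hM1
      intro T hT
      have h2 := hx T hT
      have h3 : (3 : ℝ) * T.card < 8 * cnt T (fun t => t • x T ∈ A) := by exact_mod_cast h2
      linarith
    rw [huniq M hM] at h1
    linarith
  -- the chosen averaging sets and their classes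
  have hch : ∀ g : X → Bool, ∃ (E : Finset G) (a : I), E ∈ C a ∧ (μ {x | g x = true} ≤ 1 / 3 →
      E.Nonempty ∧ ∀ x : X, 8 * cnt E (fun t => t • x ∈ {x | g x = true}) ≤ 3 * E.card) := by
    intro g
    by_cases hg : μ {x | g x = true} ≤ 1 / 3
    · obtain ⟨E, h1, h2⟩ := havg _ hg
      obtain ⟨a, ha⟩ := hC E
      exact ⟨E, a, ha, fun _ => ⟨h1, h2⟩⟩
    · obtain ⟨a, ha⟩ := hC ∅
      exact ⟨∅, a, ha, fun h => (hg h).elim⟩
  choose FF cls hFF hFF' using hch
  let Good : Set (X → Bool) := {g | μ {x | g x = true} ≤ 1 / 3}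
  have hGood : ∀ s : Set (X × Bool), Big Good s :=
    fun s => small_big hreg μ (fun A => (hμ.1 A).1) hμ.2.1 hμ.2.2.1 hnull s
  have hemp : Cd (∅ : Set (X × Bool)) := by
    refine ⟨fun x v w h => (Set.notMem_empty _ h).elim, ?_⟩
    rw [mk_eq_zero]
    exact lt_of_lt_of_le aleph0_pos hX
  obtain ⟨cA, tA, _, a2, a3⟩ := (hGood ∅).split hemp (fun x : X => x) (fun _ _ h => h)
    (fun g => e (cls g))
  have hsB : Cd (fill (∅ : Set (X × Bool)) (dm tA)) := cd_fill hX hemp (card_dm_lt a2.2)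
  obtain ⟨cB, tB, b1, b2, b3⟩ := (hGood (fill (∅ : Set (X × Bool)) (dm tA))).split hsB
    (fun x : X => x) (fun _ _ h => h) (fun g => e (cls g))
  have hdmB : dm tA ⊆ dm tB := by
    intro y hy
    have : y ∈ dm (fill (∅ : Set (X × Bool)) (dm tA)) := by
      rw [dm_fill]
      exact Or.inr hy
    obtain ⟨v, hv⟩ := this
    exact ⟨v, b1 hv⟩
  have c1 : Cd (fill tA (dm tB)) := cd_fill hX a2 (card_dm_lt b2.2)
  have c2 : dm (fill tA (dm tB)) = dm tB := by
    rw [dm_fill]
    exact union_eq_self_of_subset_left hdmB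
  have c3 : ∀ y ∈ dm (fill tA (dm tB)), (y, true) ∈ fill tA (dm tB) ∨ (y, true) ∈ tB := by
    intro y hy
    rw [c2] at hy
    by_cases h : y ∈ dm tA
    · right
      apply b1
      apply mem_fill h
      rintro ⟨v, hv⟩
      exact Set.notMem_empty _ hv
    · exact Or.inl (mem_fill hy h)
  have c4 : Big {g | g ∈ Good ∧ e (cls g) = cA} (fill tA (dm tB)) := a3.mono (subset_fill _ _)
  obtain ⟨gA, hgA, _⟩ := a3.nonempty a2
  obtain ⟨gB, hgB, _⟩ := b3.nonempty b2
  obtain ⟨N, hN⟩ := hU (cls gA) (cls gB) (1 / 16) (by norm_num)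
  obtain ⟨W, SA, SB, sA, sB, d1, d2, d3, d4, _, d6, d7, d8, d9, d10⟩ :=
    explore (G := G) (fun g => (FF g).toList ++ (FF g).toList.map (fun h => h⁻¹))
      (Classical.arbitrary X) _ _ _ _ c1 b2 c2 c3 c4 b3 N
  obtain ⟨g, hg, hgs⟩ := d8.nonempty d3
  obtain ⟨h, hh, hhs⟩ := d9.nonempty d4
  have hclsg : cls g = cls gA := he ((d1 hg).2.trans hgA.2.symm)
  have hclsh : cls h = cls gB := he ((d2 hh).2.trans hgB.2.symm)
  have hgF : FF g ∈ C (cls gA) := by
    rw [← hclsg]
    exact hFF g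
  have hhF : FF h ∈ C (cls gB) := by
    rw [← hclsh]
    exact hFF h
  obtain ⟨hg1, hg2⟩ := hFF' g (d1 hg).1
  obtain ⟨hh1, hh2⟩ := hFF' h (d2 hh).1
  have hcg : (0 : ℝ) < (FF g).card := by exact_mod_cast Finset.card_pos.2 hg1
  have hch' : (0 : ℝ) < (FF h).card := by exact_mod_cast Finset.card_pos.2 hh1
  have hwt : ∃ T : Finset G, T.Nonempty ∧ T.card ≤ N ∧ wt (FF g) (FF h) T ≤ 1 / 8 * T.card := by
    obtain ⟨T, k1, k2, k3⟩ := hN (FF g) hgF (FF h) hhF
    refine ⟨T, k1, k2, ?_⟩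
    have k4 : ∑ e ∈ FF g, (bd e T : ℝ) ≤ (FF g).card * (1 / 16 * T.card) := by
      calc ∑ e ∈ FF g, (bd e T : ℝ) ≤ ∑ _e ∈ FF g, (1 / 16 * T.card : ℝ) :=
            Finset.sum_le_sum (fun e he => k3 e (Or.inl he))
        _ = (FF g).card * (1 / 16 * T.card) := by rw [Finset.sum_const, nsmul_eq_mul]
    have k5 : ∑ e ∈ FF h, (bd e T : ℝ) ≤ (FF h).card * (1 / 16 * T.card) := by
      calc ∑ e ∈ FF h, (bd e T : ℝ) ≤ ∑ _e ∈ FF h, (1 / 16 * T.card : ℝ) :=
            Finset.sum_le_sum (fun e he => k3 e (Or.inr he))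
        _ = (FF h).card * (1 / 16 * T.card) := by rw [Finset.sum_const, nsmul_eq_mul]
    have k6 : (∑ e ∈ FF g, (bd e T : ℝ)) / (FF g).card ≤ 1 / 16 * T.card := by
      rw [div_le_iff₀ hcg]
      linarith
    have k7 : (∑ e ∈ FF h, (bd e T : ℝ)) / (FF h).card ≤ 1 / 16 * T.card := by
      rw [div_le_iff₀ hch']
      linarith
    unfold wt
    linarith
  obtain ⟨T, k1, k2, k3, k4⟩ := exists_conn (FF g) (FF h) N (1 / 8) hwt
  obtain ⟨a, haT⟩ := k1
  have hreach := subset_rch _ T a haT k4 N k2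
  let y : X := a⁻¹ • Classical.arbitrary X
  have hay : a • y = Classical.arbitrary X := smul_inv_smul _ _
  have hcov : ∀ t ∈ T, g (t • y) = true ∨ h (t • y) = true := by
    intro t ht
    have h1 : t • y ∈ pts ((FF g).toList ++ (FF g).toList.map (fun h => h⁻¹))
        ((FF h).toList ++ (FF h).toList.map (fun h => h⁻¹)) (Classical.arbitrary X) N := by
      apply smul_mem_pts {e : G | e ∈ FF g ∨ e ∈ FF h} _ _ _ a _ y hay N t (hreach t ht)
      rintro e' (he' | he')
      · left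
        exact ⟨List.mem_append_left _ (Finset.mem_toList.2 he'),
          List.mem_append_right _ (List.mem_map.2 ⟨e', Finset.mem_toList.2 he', rfl⟩)⟩
      · right
        exact ⟨List.mem_append_left _ (Finset.mem_toList.2 he'),
          List.mem_append_right _ (List.mem_map.2 ⟨e', Finset.mem_toList.2 he', rfl⟩)⟩
    have h2 := d10 g hg h hh
    rw [h2] at h1
    rcases d6 _ (d7 _ h1) with h3 | h3
    · exact Or.inl (hgs _ _ h3)
    · exact Or.inr (hhs _ _ h3)
  have h1 : (T.card : ℝ) ≤ cnt T (fun t => t • y ∈ {x | g x = true}) +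
      cnt T (fun t => t • y ∈ {x | h x = true}) := by
    have h2 := cnt_or_le T (fun t => t • y ∈ {x | g x = true}) (fun t => t • y ∈ {x | h x = true})
    have h3 : cnt T (fun t => t • y ∈ {x | g x = true} ∨ t • y ∈ {x | h x = true}) = T.card := by
      rw [← cnt_true T]
      exact cnt_congr T (fun t ht => ⟨fun _ => trivial, fun _ => hcov t ht⟩)
    rw [h3] at h2
    exact_mod_cast h2
  have h2 := density (FF g) T hg1 {x | g x = true} y hg2
  have h3 := density (FF h) T hh1 {x | h x = true} y hh2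
  have h4 : (0 : ℝ) < T.card := by exact_mod_cast Finset.card_pos.2 ⟨a, haT⟩
  unfold wt at k3
  linarith

end Pool.Agent.Helper63.INV
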